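import Mathlib

/-!
# Inverse function theorem for polynomial maps to a hypersurface (job IFT of project ST)
-/

set_option autoImplicit false

namespace Pool.Agent.Q178.ST

open MvPolynomial Filter Topology

section

variable {τ L : Type} [Fintype τ] [NontriviallyNormedField L]

/-- the derivative of a polynomial -/
noncomputable def dpol (f : MvPolynomial τ L) (p : τ → L) : (τ → L) →L[L] L :=
  ∑ a, eval p (pderiv a f) • ContinuousLinearMap.proj (R := L) (φ := fun _ : τ => L) a

lemma dpol_apply (f : MvPolynomial τ L) (p u : τ → L) : dpol f p u = ∑ a, eval p (pderiv a f) * u a := by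
  unfold dpol
  rw [sum_apply]
  rfl

lemma strict_pol (f : MvPolynomial τ L) (p : τ → L) : HasStrictFDerivAt (fun q => eval q f) (dpol f p) p := by
  classical
  induction f using MvPolynomial.induction_on with
  | C a =>
    have h : dpol (C a : MvPolynomial τ L) p = 0 := by
      ext u
      rw [dpol_apply]
      simp
    rw [h]
    simp only [eval_C]
    exact hasStrictFDerivAt_const _ _
  | add f g hf hg =>
    have h : dpol (f + g) p = dpol f p + dpol g p := by
      ext u
      rw [add_apply, dpol_apply, dpol_apply, dpol_apply, ← Finset.sum_add_distrib]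
      refine Finset.sum_congr rfl fun a _ => ?_
      rw [map_add, map_add, add_mul]
    rw [h]
    simp only [map_add]
    exact hf.add hg
  | mul_X f i hf =>
    have hX : HasStrictFDerivAt (fun q : τ → L => q i)
        (ContinuousLinearMap.proj (R := L) (φ := fun _ : τ => L) i) p :=
      (ContinuousLinearMap.proj (R := L) (φ := fun _ : τ => L) i).hasStrictFDerivAt
    have h : dpol (f * X i) p = eval p f • ContinuousLinearMap.proj (R := L) (φ := fun _ : τ => L) i +
        p i • dpol f p := by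
      ext u
      rw [add_apply, smul_apply, smul_apply,
        dpol_apply, dpol_apply, smul_eq_mul, smul_eq_mul, Finset.mul_sum]
      have h1 : ∀ a, eval p (pderiv a (f * X i)) * u a = (if a = i then eval p f * u i else 0) +
          p i * (eval p (pderiv a f) * u a) := by
        intro a
        rw [pderiv_mul, map_add, map_mul, map_mul, eval_X]
        by_cases ha : a = i
        · subst ha
          rw [pderiv_X_self, map_one, if_pos rfl]
          ring
        · rw [pderiv_X_of_ne (Ne.symm ha), map_zero, if_neg ha]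
          ring
      rw [Finset.sum_congr rfl fun a _ => h1 a, Finset.sum_add_distrib, Finset.sum_ite_eq',
        if_pos (Finset.mem_univ _)]
      rfl
    rw [h]
    simp only [map_mul, eval_X]
    exact hf.mul hX

end

lemma eval_aeval_mv {σ τ L : Type} [Field L] (Ψ : σ → MvPolynomial τ L) (F : MvPolynomial σ L) (q : τ → L) :
    eval q (aeval Ψ F) = eval (fun s => eval q (Ψ s)) F := by
  induction F using MvPolynomial.induction_on with
  | C a => simp
  | add f g hf hg => rw [map_add, map_add, hf, hg, map_add]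
  | mul_X f i hf => rw [map_mul, map_mul, hf, aeval_X, map_mul, eval_X]

/-- the unfolded statement `Pool.Agent.Q35.ST.S_IFT` -/
theorem ift : ∀ (σ τ L : Type) [Fintype σ] [Fintype τ] [NontriviallyNormedField L]
  [CompleteSpace L] (Ψ : σ → MvPolynomial τ L) (F : MvPolynomial σ L), aeval Ψ F = 0 →
  ∀ p : τ → L, (∃ s, eval (fun s => eval p (Ψ s)) (pderiv s F) ≠ 0) →
  (∀ t : σ → L, ∑ s, eval (fun s => eval p (Ψ s)) (pderiv s F) * t s = 0 →
      ∃ u : τ → L, ∀ s, ∑ a, eval p (pderiv a (Ψ s)) * u a = t s) →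
  ∀ A ∈ nhds p, ∀ᶠ y in nhds (fun s => eval p (Ψ s)), eval y F = 0 →
    ∃ q ∈ A, (fun s => eval q (Ψ s)) = y := by
  classical
  intro σ τ L _ _ _ _ Ψ F hΨ p ⟨s0, hs0⟩ hsurj A hA
  set y0 : σ → L := fun s => eval p (Ψ s) with hy0
  -- the polynomial map vanishes on F
  have hF0 : ∀ q : τ → L, eval (fun s => eval q (Ψ s)) F = 0 := by
    intro q
    rw [← eval_aeval_mv, hΨ, map_zero]
  set Θ : (τ → L) × L → (σ → L) := fun x s => eval x.1 (Ψ s) + (Pi.single s0 (1:L) : σ → L) s * x.2 with hΘ
  set Θ' : ((τ → L) × L) →L[L] (σ → L) := ContinuousLinearMap.pi fun s =>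
    (dpol (Ψ s) p).comp (ContinuousLinearMap.fst L (τ → L) L) +
      (Pi.single s0 (1:L) : σ → L) s • ContinuousLinearMap.snd L (τ → L) L with hΘ'
  have hstr : HasStrictFDerivAt Θ Θ' (p, 0) := by
    rw [hΘ, hΘ']
    apply hasStrictFDerivAt_pi.2
    intro s
    have h1 : HasStrictFDerivAt (fun x : (τ → L) × L => eval x.1 (Ψ s))
        ((dpol (Ψ s) p).comp (ContinuousLinearMap.fst L (τ → L) L)) (p, 0) :=
      (show HasStrictFDerivAt (fun q : τ → L => eval q (Ψ s)) (dpol (Ψ s) p) ((p, (0:L)).1) from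
        strict_pol (Ψ s) p).comp (p, (0:L)) hasStrictFDerivAt_fst
    have h2 : HasStrictFDerivAt (fun x : (τ → L) × L => (Pi.single s0 (1:L) : σ → L) s * x.2)
        ((Pi.single s0 (1:L) : σ → L) s • ContinuousLinearMap.snd L (τ → L) L) (p, 0) :=
      hasStrictFDerivAt_snd.const_mul _
    exact h1.add h2
  have hrange : Θ'.range = ⊤ := by
    rw [LinearMap.range_eq_top]
    intro v
    set c : σ → L := fun s => eval y0 (pderiv s F) with hc
    set t : L := (∑ s, c s * v s) / c s0 with ht
    obtain ⟨u, hu⟩ := hsurj (fun s => v s - (Pi.single s0 (1:L) : σ → L) s * t) (by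
      have h1 : ∑ s, c s * (v s - (Pi.single s0 (1:L) : σ → L) s * t) = (∑ s, c s * v s) - c s0 * t := by
        simp_rw [mul_sub]
        rw [Finset.sum_sub_distrib]
        congr 1
        rw [Finset.sum_eq_single s0]
        · rw [Pi.single_eq_same, one_mul]
        · intro s _ hs
          rw [Pi.single_eq_of_ne hs]; ring
        · intro h; exact absurd (Finset.mem_univ s0) h
      have h2 : c s0 ≠ 0 := hs0
      rw [h1, ht, mul_div_cancel₀ _ h2, sub_self])
    refine ⟨(u, t), ?_⟩
    funext s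
    show (Θ' (u, t)) s = v s
    rw [hΘ', ContinuousLinearMap.pi_apply]
    show dpol (Ψ s) p u + (Pi.single s0 (1:L) : σ → L) s * t = v s
    rw [dpol_apply, hu s]
    ring
  have hmap := hstr.map_nhds_eq_of_surj hrange
  -- smallness
  set e : σ → L := Pi.single s0 1 with he
  set δ : L := eval y0 (pderiv s0 F) with hδ
  have hδ0 : 0 < ‖δ‖ := norm_pos_iff.2 hs0
  have hFs := (strict_pol F y0).isLittleO
  have hb := hFs.def (c := ‖δ‖ / (2 * (‖e‖ + 1))) (by positivity)
  rw [nhds_prod_eq, eventually_prod_iff] at hb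
  obtain ⟨P1, hP1, P2, hP2, hP⟩ := hb
  have hcont : Continuous fun q : τ → L => (fun s => eval q (Ψ s) : σ → L) := by
    apply continuous_pi
    intro s
    exact MvPolynomial.continuous_eval (Ψ s)
  have hN : {x : (τ → L) × L | x.1 ∈ A ∧ P2 (fun s => eval x.1 (Ψ s))} ∈ 𝓝 (p, (0:L)) := by
    have h1 : {q : τ → L | q ∈ A ∧ P2 (fun s => eval q (Ψ s))} ∈ 𝓝 p :=
      inter_mem hA (hcont.continuousAt.eventually hP2)
    exact (continuous_fst.continuousAt (x := (p, (0:L)))).preimage_mem_nhds h1
  have hΘ0 : Θ (p, 0) = y0 := by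
    funext s
    simp [hΘ, hy0]
  have himg : Θ '' {x : (τ → L) × L | x.1 ∈ A ∧ P2 (fun s => eval x.1 (Ψ s))} ∈ 𝓝 y0 := by
    rw [← hΘ0, ← hmap]
    exact image_mem_map hN
  filter_upwards [himg, hP1] with y hy hPy hFy
  obtain ⟨⟨q, t⟩, ⟨hqA, hqP⟩, hqy⟩ := hy
  refine ⟨q, hqA, ?_⟩
  have h1 := hP hPy hqP
  simp only at h1
  have hdiff : y - (fun s => eval q (Ψ s)) = t • e := by
    rw [← hqy, hΘ]
    funext s
    simp only [Pi.sub_apply, Pi.smul_apply, smul_eq_mul, he]
    ring
  rw [hFy, hF0 q, hdiff, map_smul, norm_smul] at h1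
  have hde : dpol F y0 e = δ := by
    rw [dpol_apply, Finset.sum_eq_single s0]
    · rw [he, Pi.single_eq_same, mul_one]
    · intro s _ hs
      rw [he, Pi.single_eq_of_ne hs, mul_zero]
    · intro h; exact absurd (Finset.mem_univ s0) h
  rw [hde] at h1
  simp only [sub_zero, zero_sub, norm_neg, smul_eq_mul, norm_mul] at h1
  have ht : t = 0 := by
    by_contra ht
    have ht0 : 0 < ‖t‖ := norm_pos_iff.2 ht
    have h2 : ‖δ‖ / (2 * (‖e‖ + 1)) * (‖t‖ * ‖e‖) < ‖t‖ * ‖δ‖ := by
      have h3 : ‖e‖ / (2 * (‖e‖ + 1)) < 1 := by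
        rw [div_lt_one (by positivity)]
        have := norm_nonneg e
        linarith
      calc ‖δ‖ / (2 * (‖e‖ + 1)) * (‖t‖ * ‖e‖) = (‖t‖ * ‖δ‖) * (‖e‖ / (2 * (‖e‖ + 1))) := by ring
        _ < (‖t‖ * ‖δ‖) * 1 := mul_lt_mul_of_pos_left h3 (by positivity)
        _ = _ := mul_one _
    linarith
  rw [← hqy, hΘ]
  funext s
  simp only
  rw [ht]
  ring

end Pool.Agent.Q178.ST
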