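import Mathlib

/-!
# Forms in at least three variables have many zeros (job INF of project ST of helper35)
-/

set_option autoImplicit false

namespace Pool.Agent.Q178.ST

open MvPolynomial

lemma eval_aeval_poly {σ k : Type} [Field k] (P : σ → Polynomial k) (α : MvPolynomial σ k) (t : k) :
    Polynomial.eval t (aeval P α) = eval (fun i => Polynomial.eval t (P i)) α := by
  induction α using MvPolynomial.induction_on with
  | C a => simp
  | add p q hp hq => rw [map_add, Polynomial.eval_add, hp, hq, map_add]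
  | mul_X p i hp => rw [map_mul, Polynomial.eval_mul, hp, map_mul, aeval_X, eval_X]

lemma eval_smul_hom {σ k : Type} [Fintype σ] [Field k] {α : MvPolynomial σ k} {e : ℕ}
    (hα : α.IsHomogeneous e) (s : k) (x : σ → k) : eval (s • x) α = s ^ e * eval x α := by
  rw [eval_eq', eval_eq', Finset.mul_sum]
  refine Finset.sum_congr rfl fun d hd => ?_
  have h1 : ∑ i, d i = e := by
    have h2 := hα (mem_support_iff.1 hd)
    rw [Finsupp.weight_apply, Finsupp.sum_fintype _ _ (by simp)] at h2
    simpa using h2
  have h3 : ∏ i, (s • x) i ^ d i = s ^ e * ∏ i, x i ^ d i := by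
    rw [← h1, ← Finset.prod_pow_eq_pow_sum, ← Finset.prod_mul_distrib]
    refine Finset.prod_congr rfl fun i _ => ?_
    rw [Pi.smul_apply, smul_eq_mul, mul_pow]
  rw [h3]
  ring

/-- the unfolded statement `Pool.Agent.Q35.ST.S_INF` -/
theorem inf' : ∀ (N : ℕ) (k : Type) [Field k] [CharZero k] [IsAlgClosed k], 2 ≤ N →
  ∀ (α : MvPolynomial (Fin (N + 1)) k) (e : ℕ), e ≠ 0 → α.IsHomogeneous e →
  ∀ E : Finset (Fin (N + 1) → k), (∀ v ∈ E, v ≠ 0) →
  ∃ z : Fin (N + 1) → k, z ≠ 0 ∧ eval z α = 0 ∧ ∀ v ∈ E, ¬ ∃ c : k, ∀ i, z i = c * v i := by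
  intro N k _ _ _ hN α e he hα E hE
  have : Infinite k := IsAlgClosed.instInfinite
  obtain ⟨f, hf⟩ := Module.exists_dual_forall_apply_ne_zero (K := k) (fun v : E => (v : Fin (N + 1) → k))
    (fun v => hE v v.2)
  -- two independent vectors in the kernel
  have hr : Module.finrank k (LinearMap.ker f) + 1 ≥ N + 1 := by
    have h1 := LinearMap.finrank_range_add_finrank_ker f
    have h2 : Module.finrank k (LinearMap.range f) ≤ Module.finrank k k := Submodule.finrank_le _
    rw [Module.finrank_self] at h2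
    rw [Module.finrank_fin_fun] at h1
    omega
  have hr1 : 1 < Module.finrank k (LinearMap.ker f) := by omega
  have : Nontrivial (LinearMap.ker f) := Module.nontrivial_of_finrank_pos (R := k) (by omega)
  obtain ⟨p, hp⟩ := exists_ne (0 : LinearMap.ker f)
  obtain ⟨q, hq⟩ := exists_linearIndependent_pair_of_one_lt_finrank hr1 hp
  have hind : ∀ s t : k, s • (p : Fin (N + 1) → k) + t • (q : Fin (N + 1) → k) = 0 → s = 0 ∧ t = 0 := by
    intro s t h
    have := LinearIndependent.pair_iff.1 hq s t (by
      apply Subtype.ext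
      simpa using h)
    exact this
  have hker : ∀ s t : k, f (s • (p : Fin (N + 1) → k) + t • (q : Fin (N + 1) → k)) = 0 := by
    intro s t
    rw [map_add, map_smul, map_smul, LinearMap.mem_ker.1 p.2, LinearMap.mem_ker.1 q.2]
    simp
  have hsmul : ∀ (s : k) (x : Fin (N + 1) → k), eval (s • x) α = s ^ e * eval x α := by
    intro s x
    exact eval_smul_hom hα s x
  -- it suffices to find a zero on the line
  suffices h : ∃ s t : k, (s ≠ 0 ∨ t ≠ 0) ∧
      eval (s • (p : Fin (N + 1) → k) + t • (q : Fin (N + 1) → k)) α = 0 by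
    obtain ⟨s, t, hst, h0⟩ := h
    have hz : s • (p : Fin (N + 1) → k) + t • (q : Fin (N + 1) → k) ≠ 0 := by
      intro h
      have := hind s t h
      tauto
    refine ⟨_, hz, h0, ?_⟩
    rintro v hv ⟨c, hc⟩
    have h1 : s • (p : Fin (N + 1) → k) + t • (q : Fin (N + 1) → k) = c • v := by
      funext i; rw [hc i]; rfl
    have h2 := hker s t
    rw [h1, map_smul, smul_eq_mul] at h2
    rcases mul_eq_zero.1 h2 with h3 | h3
    · rw [h1, h3, zero_smul] at hz; exact hz rfl
    · exact hf ⟨v, hv⟩ h3
  let g : Polynomial k := aeval (fun i => Polynomial.C ((p : Fin (N + 1) → k) i) +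
    Polynomial.X * Polynomial.C ((q : Fin (N + 1) → k) i)) α
  have hg : ∀ t : k, Polynomial.eval t g = eval ((p : Fin (N + 1) → k) + t • (q : Fin (N + 1) → k)) α := by
    intro t
    rw [eval_aeval_poly]
    congr 1
    congr 1
    funext i
    simp only [Polynomial.eval_add, Polynomial.eval_mul, Polynomial.eval_X, Polynomial.eval_C, Pi.add_apply,
      Pi.smul_apply, smul_eq_mul]
  by_cases hd : g.degree = 0
  · obtain ⟨a, ha⟩ : ∃ a, g = Polynomial.C a := ⟨_, Polynomial.eq_C_of_degree_eq_zero hd⟩
    let h : Polynomial k := aeval (fun i => Polynomial.X * Polynomial.C ((p : Fin (N + 1) → k) i) +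
      Polynomial.C ((q : Fin (N + 1) → k) i)) α
    have hh : ∀ t : k, Polynomial.eval t h = eval (t • (p : Fin (N + 1) → k) + (q : Fin (N + 1) → k)) α := by
      intro t
      rw [eval_aeval_poly]
      congr 1
      congr 1
      funext i
      simp only [Polynomial.eval_add, Polynomial.eval_mul, Polynomial.eval_X, Polynomial.eval_C, Pi.add_apply,
      Pi.smul_apply, smul_eq_mul]
    have heq : h = Polynomial.C a * Polynomial.X ^ e := by
      apply Polynomial.eq_of_infinite_eval_eq
      refine Set.Infinite.mono ?_ (Set.finite_singleton (0 : k)).infinite_compl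
      intro t ht
      have ht0 : t ≠ 0 := ht
      show Polynomial.eval t h = Polynomial.eval t (Polynomial.C a * Polynomial.X ^ e)
      rw [hh]
      have h1 := hg t⁻¹
      rw [ha, Polynomial.eval_C] at h1
      have h2 : t • (p : Fin (N + 1) → k) + (q : Fin (N + 1) → k) =
          t • ((p : Fin (N + 1) → k) + t⁻¹ • (q : Fin (N + 1) → k)) := by
        rw [smul_add, smul_smul, mul_inv_cancel₀ ht0, one_smul]
      rw [h2, hsmul, ← h1, Polynomial.eval_mul, Polynomial.eval_C, Polynomial.eval_pow, Polynomial.eval_X, mul_comm]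
    refine ⟨0, 1, Or.inr one_ne_zero, ?_⟩
    have h3 := hh 0
    rw [heq, Polynomial.eval_mul, Polynomial.eval_pow, Polynomial.eval_X, zero_pow he, mul_zero] at h3
    rw [one_smul, ← h3]
  · obtain ⟨t, ht⟩ := IsAlgClosed.exists_root g hd
    refine ⟨1, t, Or.inl one_ne_zero, ?_⟩
    rw [one_smul, ← hg]
    exact ht

end Pool.Agent.Q178.ST
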