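import Pool.Agent.Q35.ST.Stm2

/-!
# Identities for the moves along conics (job M1 of project ST)
-/

set_option autoImplicit false

namespace Pool.Agent.Q178.ST

open MvPolynomial Pool.Agent.Q35.ST

section

variable {κ : Type} [DecidableEq κ] {n : κ → ℕ} {k R : Type} [Field k] [CommRing R] [Algebra k R]

omit [CommRing R] in
lemma up_same (z : Pc n → R) (l : κ) (y : Fin (n l + 1) → R) (i : Fin (n l + 1)) :
    upd z l y ⟨l, i⟩ = y i := by
  simp [upd]

omit [CommRing R] in
lemma up_ne (z : Pc n → R) (l : κ) (y : Fin (n l + 1) → R) (s : Pc n) (h : s.1 ≠ l) :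
    upd z l y s = z s := by
  simp [upd, Function.update_of_ne h]

lemma up_up (z : Pc n → R) (l : κ) (x y : Fin (n l + 1) → R) : upd (upd z l x) l y = upd z l y := by
  funext s
  obtain ⟨m, j⟩ := s
  by_cases h : m = l
  · subst h; rw [up_same, up_same]
  · rw [up_ne _ _ _ _ h, up_ne _ _ _ _ h, up_ne _ _ _ _ h]

lemma up_self (z : Pc n → R) (l : κ) : upd z l (fun i => z ⟨l, i⟩) = z := by
  funext s
  obtain ⟨m, j⟩ := s
  by_cases h : m = l
  · subst h; rw [up_same]
  · rw [up_ne _ _ _ _ h]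

/-- the form in the factor `l` -/
noncomputable def Qx (F : MvPolynomial (Pc n) k) (z : Pc n → R) (l : κ) (x : Fin (n l + 1) → R) : R :=
  aeval (upd z l x) F

/-- its polar form -/
noncomputable def Bx (F : MvPolynomial (Pc n) k) (z : Pc n → R) (l : κ) (x w : Fin (n l + 1) → R) : R :=
  ∑ i, w i * aeval (upd z l x) (pderiv ⟨l, i⟩ F)

/-- the identities of a quadratic form and its polar form -/
structure QB (F : MvPolynomial (Pc n) k) (z : Pc n → R) (l : κ) : Prop where
  add : ∀ (c e : R) (x w : Fin (n l + 1) → R),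
    Qx F z l (fun i => c * x i + e * w i) = c ^ 2 * Qx F z l x + c * e * Bx F z l x w + e ^ 2 * Qx F z l w
  lin : ∀ (c e : R) (x w w' : Fin (n l + 1) → R),
    Bx F z l (fun i => c * x i + e * w i) w' = c * Bx F z l x w' + e * Bx F z l w w'
  self : ∀ w : Fin (n l + 1) → R, Bx F z l w w = 2 * Qx F z l w
  symm : ∀ x w : Fin (n l + 1) → R, Bx F z l x w = Bx F z l w x

lemma QB.zero (z : Pc n → R) (l : κ) : QB (0 : MvPolynomial (Pc n) k) z l := by
  constructor <;> intros <;> simp [Qx, Bx]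

lemma Bx_add (F G : MvPolynomial (Pc n) k) (z : Pc n → R) (l : κ) (x w : Fin (n l + 1) → R) :
    Bx (F + G) z l x w = Bx F z l x w + Bx G z l x w := by
  unfold Bx
  rw [← Finset.sum_add_distrib]
  refine Finset.sum_congr rfl fun i _ => ?_
  rw [map_add, map_add, mul_add]

lemma QB.add' {F G : MvPolynomial (Pc n) k} {z : Pc n → R} {l : κ} (hF : QB F z l) (hG : QB G z l) :
    QB (F + G) z l := by
  have hQ : ∀ x, Qx (F + G) z l x = Qx F z l x + Qx G z l x := fun x => by
    unfold Qx; rw [map_add]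
  constructor
  · intro c e x w
    rw [hQ, hQ, hQ, Bx_add, hF.add, hG.add]
    ring
  · intro c e x w w'
    rw [Bx_add, Bx_add, Bx_add, hF.lin, hG.lin]
    ring
  · intro w
    rw [Bx_add, hQ, hF.self, hG.self]
    ring
  · intro x w
    rw [Bx_add, Bx_add, hF.symm, hG.symm]

/-- a monomial without variables of the factor `l` -/
lemma aeval_free (m : Pc n →₀ ℕ) (c : k) (l : κ) (hm : ∀ i, m ⟨l, i⟩ = 0) (z : Pc n → R)
    (x : Fin (n l + 1) → R) : aeval (upd z l x) (monomial m c) = aeval z (monomial m c) := by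
  rw [aeval_monomial, aeval_monomial]
  congr 1
  refine Finsupp.prod_congr fun s hs => ?_
  obtain ⟨j, i⟩ := s
  by_cases h : j = l
  · subst h
    exact absurd (hm i) (Finsupp.mem_support_iff.1 hs)
  · rw [up_ne _ _ _ _ h]

lemma QB.mono (m : Pc n →₀ ℕ) (c : k) (l : κ) (hm : ∀ i, m ⟨l, i⟩ = 0) (a b : Fin (n l + 1)) (z : Pc n → R) :
    QB (monomial m c * X ⟨l, a⟩ * X ⟨l, b⟩) z l := by
  set ρ : R := aeval z (monomial m c) with hρ
  have hQ : ∀ x, Qx (monomial m c * X ⟨l, a⟩ * X ⟨l, b⟩) z l x = ρ * x a * x b := by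
    intro x
    unfold Qx
    rw [map_mul, map_mul, aeval_X, aeval_X, up_same, up_same, aeval_free m c l hm]
  have hB : ∀ x w, Bx (monomial m c * X ⟨l, a⟩ * X ⟨l, b⟩) z l x w = ρ * (w a * x b + w b * x a) := by
    intro x w
    unfold Bx
    have h1 : ∀ i, w i * aeval (upd z l x) (pderiv ⟨l, i⟩ (monomial m c * X ⟨l, a⟩ * X ⟨l, b⟩)) =
        (if i = a then ρ * (w a * x b) else 0) + (if i = b then ρ * (w b * x a) else 0) := by
      intro i
      rw [pderiv_mul, pderiv_mul, pderiv_monomial, hm i]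
      simp only [Nat.cast_zero, mul_zero, monomial_zero, zero_mul, zero_add]
      rw [map_add, map_mul, map_mul, map_mul, map_mul, aeval_X, aeval_X, up_same, up_same,
        aeval_free m c l hm, mul_add]
      congr 1
      · by_cases h : i = a
        · subst h
          rw [if_pos rfl, pderiv_X_self, map_one]
          ring
        · rw [if_neg h, pderiv_X_of_ne (by
            intro h'; exact h (by simpa using h'.symm)), map_zero]
          ring
      · by_cases h : i = b
        · subst h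
          rw [if_pos rfl, pderiv_X_self, map_one]
          ring
        · rw [if_neg h, pderiv_X_of_ne (by
            intro h'; exact h (by simpa using h'.symm)), map_zero]
          ring
    rw [Finset.sum_congr rfl fun i _ => h1 i, Finset.sum_add_distrib, Finset.sum_ite_eq', Finset.sum_ite_eq',
      if_pos (Finset.mem_univ _), if_pos (Finset.mem_univ _)]
    ring
  constructor
  · intro c e x w
    rw [hQ, hQ, hQ, hB]
    ring
  · intro c e x w w'
    rw [hB, hB, hB]
    ring
  · intro w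
    rw [hB, hQ]
    ring
  · intro x w
    rw [hB, hB]
    ring

lemma split_two (l : κ) (m : Pc n →₀ ℕ) (h : ∑ i, m ⟨l, i⟩ = 2) :
    ∃ (a b : Fin (n l + 1)) (m' : Pc n →₀ ℕ), (∀ i, m' ⟨l, i⟩ = 0) ∧
      m = m' + Finsupp.single ⟨l, a⟩ 1 + Finsupp.single ⟨l, b⟩ 1 := by
  have step : ∀ (m : Pc n →₀ ℕ) (N : ℕ), ∑ i, m ⟨l, i⟩ = N + 1 →
      ∃ (a : Fin (n l + 1)) (m' : Pc n →₀ ℕ), m = m' + Finsupp.single ⟨l, a⟩ 1 ∧ ∑ i, m' ⟨l, i⟩ = N := by
    intro m N h
    obtain ⟨a, -, ha⟩ : ∃ a ∈ Finset.univ, m (⟨l, a⟩ : Pc n) ≠ 0 := by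
      by_contra hcon
      push Not at hcon
      rw [Finset.sum_eq_zero hcon] at h
      omega
    have hle : Finsupp.single (⟨l, a⟩ : Pc n) 1 ≤ m := by
      rw [Finsupp.single_le_iff]
      omega
    obtain ⟨m1, e1⟩ : ∃ m1 : Pc n →₀ ℕ, m = m1 + Finsupp.single (⟨l, a⟩ : Pc n) 1 :=
      ⟨m - Finsupp.single (⟨l, a⟩ : Pc n) 1, (tsub_add_cancel_of_le hle).symm⟩
    refine ⟨a, m1, e1, ?_⟩
    have e2 : ∑ i, m ⟨l, i⟩ = ∑ i, m1 ⟨l, i⟩ + ∑ i, (Finsupp.single (⟨l, a⟩ : Pc n) 1) ⟨l, i⟩ := by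
      rw [← Finset.sum_add_distrib]
      refine Finset.sum_congr rfl fun i _ => ?_
      conv_lhs => rw [e1]
      rw [Finsupp.add_apply]
    have e3 : ∑ i, (Finsupp.single (⟨l, a⟩ : Pc n) 1) ⟨l, i⟩ = 1 := by
      rw [Finset.sum_eq_single a]
      · simp
      · intro i _ hi
        rw [Finsupp.single_apply, if_neg]
        intro h'
        exact hi (by simpa using h'.symm)
      · intro h; exact absurd (Finset.mem_univ a) h
    omega
  obtain ⟨b, m1, hm1, hs1⟩ := step m 1 h
  obtain ⟨a, m2, hm2, hs2⟩ := step m1 0 hs1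
  refine ⟨a, b, m2, ?_, by rw [hm1, hm2]⟩
  intro i
  exact (Finset.sum_eq_zero_iff.1 hs2) i (Finset.mem_univ i)

theorem qb {F : MvPolynomial (Pc n) k} (hF : MH Set.univ (fun _ => 2) F) (z : Pc n → R) (l : κ) : QB F z l := by
  rw [F.as_sum]
  refine Finset.sum_induction _ (fun G => QB G z l) (fun _ _ => QB.add') (QB.zero z l) ?_
  intro m hm
  obtain ⟨a, b, m', hm', e⟩ := split_two l m (hF m hm l (Set.mem_univ l))
  have e2 : monomial m (coeff m F) = monomial m' (coeff m F) * X ⟨l, a⟩ * X ⟨l, b⟩ := by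
    conv_lhs => rw [e]
    rw [X, X, monomial_mul, monomial_mul, mul_one, mul_one]
    rw [← e]
  rw [e2]
  exact QB.mono m' _ l hm' a b z

lemma qf_eq (F : MvPolynomial (Pc n) k) (l : κ) (z w : Pc n → R) :
    qf F l z w = Qx F z l (fun i => w ⟨l, i⟩) := rfl

lemma bf_eq (F : MvPolynomial (Pc n) k) (l : κ) (z w : Pc n → R) :
    bf F l z w = Bx F z l (fun i => z ⟨l, i⟩) (fun i => w ⟨l, i⟩) := by
  unfold bf Bx
  rw [up_self]

lemma bf_up (F : MvPolynomial (Pc n) k) (l : κ) (z w : Pc n → R) (x : Fin (n l + 1) → R) :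
    bf F l (upd z l x) w = Bx F z l x (fun i => w ⟨l, i⟩) := rfl

lemma qf_up (F : MvPolynomial (Pc n) k) (l : κ) (z w : Pc n → R) (x : Fin (n l + 1) → R) :
    qf F l (upd z l x) w = qf F l z w := by
  unfold qf
  rw [up_up]

end

theorem m1 : S_M1 := by
  intro κ _ _ n k R _ _ _ F hF l z w
  have h := qb (R := R) hF z l
  have hsc : ∀ c : R, qf F l z (fun s => c * w s) = c ^ 2 * qf F l z w := by
    intro c
    rw [qf_eq, qf_eq]
    have h1 := h.add c 0 (fun i => w ⟨l, i⟩) (fun i => w ⟨l, i⟩)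
    simp only [zero_mul, add_zero, mul_zero, ne_eq, OfNat.ofNat_ne_zero, not_false_eq_true, zero_pow] at h1
    exact h1
  refine ⟨fun w' => ?_, ?_, ?_, fun c => ?_, hsc⟩
  · unfold mv
    rw [qf_up]
  · have h1 := h.add (qf F l z w) (-(bf F l z w)) (fun i => z ⟨l, i⟩) (fun i => w ⟨l, i⟩)
    have h2 : Qx F z l (fun i => z ⟨l, i⟩) = aeval z F := by
      unfold Qx; rw [up_self]
    rw [h2, ← qf_eq, ← bf_eq] at h1
    have h3 : aeval (mv F l z w) F = Qx F z l
        (fun i => qf F l z w * z ⟨l, i⟩ + -(bf F l z w) * w ⟨l, i⟩) := by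
      unfold mv Qx
      congr 2
      congr 1
      funext i
      ring
    rw [h3, h1]
    ring
  · have h1 : mv F l (mv F l z w) w = upd z l (fun i => qf F l z w * (mv F l z w) ⟨l, i⟩ -
        bf F l (mv F l z w) w * w ⟨l, i⟩) := by
      conv_lhs => unfold mv
      rw [up_up]
      have : qf F l (upd z l fun i => qf F l z w * z ⟨l, i⟩ - bf F l z w * w ⟨l, i⟩) w = qf F l z w := qf_up _ _ _ _ _
      rw [this]
      rfl
    rw [h1]
    congr 1
    have h2 : bf F l (mv F l z w) w = -(qf F l z w * bf F l z w) := by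
      have h3 : bf F l (mv F l z w) w = Bx F z l
          (fun i => qf F l z w * z ⟨l, i⟩ + -(bf F l z w) * w ⟨l, i⟩) (fun i => w ⟨l, i⟩) := by
        unfold mv
        rw [bf_up]
        congr 1
        funext i
        ring
      rw [h3, h.lin, h.self, ← bf_eq, ← qf_eq]
      ring
    rw [h2]
    funext i
    unfold mv
    rw [up_same]
    ring
  · unfold mv
    congr 1
    funext i
    rw [up_same, hsc]
    have : bf F l z (fun s => c * w s) = c * bf F l z w := by
      unfold bf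
      rw [Finset.mul_sum]
      refine Finset.sum_congr rfl fun i _ => ?_
      ring
    rw [this]
    ring

end Pool.Agent.Q178.ST
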