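import Pool.Agent.Q178.ST.MA

/-!
# Vector fields from moves (job M2 of project ST)
-/

set_option autoImplicit false

namespace Pool.Agent.Q178.ST

open MvPolynomial Pool.Agent.Q35.ST

lemma poly_chain {σ k : Type} [Fintype σ] [Field k] (P : σ → Polynomial k) (g : MvPolynomial σ k) :
    Polynomial.eval 0 (Polynomial.derivative (aeval P g)) =
      ∑ s, eval (fun s => Polynomial.eval 0 (P s)) (pderiv s g) * Polynomial.eval 0 (Polynomial.derivative (P s)) := by
  classical
  have hev : ∀ f : MvPolynomial σ k, Polynomial.eval 0 (aeval P f) = eval (fun s => Polynomial.eval 0 (P s)) f := by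
    intro f
    induction f using MvPolynomial.induction_on with
    | C a => simp
    | add p q hp hq => rw [map_add, Polynomial.eval_add, hp, hq, map_add]
    | mul_X p i hp => rw [map_mul, Polynomial.eval_mul, hp, map_mul, aeval_X, eval_X]
  induction g using MvPolynomial.induction_on with
  | C a => simp
  | add p q hp hq =>
    rw [map_add, Polynomial.derivative_add, Polynomial.eval_add, hp, hq, ← Finset.sum_add_distrib]
    refine Finset.sum_congr rfl fun s _ => ?_
    rw [map_add, map_add, add_mul]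
  | mul_X p i hp =>
    rw [map_mul, aeval_X, Polynomial.derivative_mul, Polynomial.eval_add, Polynomial.eval_mul,
      Polynomial.eval_mul, hp, hev]
    have h1 : ∀ s, eval (fun s => Polynomial.eval 0 (P s)) (pderiv s (p * X i)) *
        Polynomial.eval 0 (Polynomial.derivative (P s)) =
        (eval (fun s => Polynomial.eval 0 (P s)) (pderiv s p) * Polynomial.eval 0 (Polynomial.derivative (P s))) *
          Polynomial.eval 0 (P i) +
        (if s = i then eval (fun s => Polynomial.eval 0 (P s)) p * Polynomial.eval 0 (Polynomial.derivative (P i))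
          else 0) := by
      intro s
      rw [pderiv_mul, map_add, map_mul, map_mul, eval_X]
      by_cases h : s = i
      · subst h
        rw [pderiv_X_self, map_one, if_pos rfl]
        ring
      · rw [pderiv_X_of_ne (Ne.symm h), map_zero, if_neg h]
        ring
    rw [Finset.sum_congr rfl fun s _ => h1 s, Finset.sum_add_distrib, Finset.sum_ite_eq',
      if_pos (Finset.mem_univ _), Finset.sum_mul]

section

variable {κ : Type} [Fintype κ] [DecidableEq κ] {n : κ → ℕ} {k : Type} [Field k]

/-- a polynomial which vanishes along a curve in the factor `l` is killed by the velocity -/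
lemma vel [Infinite k] (g : MvPolynomial (Pc n) k) (y : Pc n → k) (l : κ) (β γ : Fin (n l + 1) → k)
    (h : ∀ e : k, eval (upd y l (fun i => y ⟨l, i⟩ + e * β i + e ^ 2 * γ i)) g = 0) :
    ∑ i, eval y (pderiv ⟨l, i⟩ g) * β i = 0 := by
  set P : Pc n → Polynomial k := upd (fun s => Polynomial.C (y s)) l
    (fun i => Polynomial.C (y ⟨l, i⟩) + Polynomial.X * Polynomial.C (β i) + Polynomial.X ^ 2 * Polynomial.C (γ i)) with hP
  have hPe : ∀ e : k, (fun s => Polynomial.eval e (P s)) =
      upd y l (fun i => y ⟨l, i⟩ + e * β i + e ^ 2 * γ i) := by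
    intro e
    funext s
    obtain ⟨m, j⟩ := s
    rw [hP]
    by_cases hm : m = l
    · subst hm
      rw [up_same, up_same]
      simp
      ring
    · rw [up_ne _ _ _ _ hm, up_ne _ _ _ _ hm, Polynomial.eval_C]
  have h0 : aeval P g = 0 := by
    apply Polynomial.eq_zero_of_infinite_isRoot
    refine Set.infinite_univ.mono fun e _ => ?_
    show Polynomial.eval e (aeval P g) = 0
    have hev : ∀ f : MvPolynomial (Pc n) k, Polynomial.eval e (aeval P f) =
        eval (fun s => Polynomial.eval e (P s)) f := by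
      intro f
      induction f using MvPolynomial.induction_on with
      | C a => simp
      | add p q hp hq => rw [map_add, Polynomial.eval_add, hp, hq, map_add]
      | mul_X p i hp => rw [map_mul, Polynomial.eval_mul, hp, map_mul, aeval_X, eval_X]
    rw [hev, hPe, h]
  have h1 := poly_chain P g
  rw [h0, Polynomial.derivative_zero, Polynomial.eval_zero, hPe 0] at h1
  have h2 : upd y l (fun i => y ⟨l, i⟩ + (0:k) * β i + (0:k) ^ 2 * γ i) = y := by
    have : (fun i => y ⟨l, i⟩ + (0:k) * β i + (0:k) ^ 2 * γ i) = fun i => y ⟨l, i⟩ := by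
      funext i; ring
    rw [this, up_self]
  rw [h2, Fintype.sum_sigma, Finset.sum_eq_single l] at h1
  · rw [h1]
    refine Finset.sum_congr rfl fun i _ => ?_
    congr 1
    rw [hP, up_same]
    simp
  · intro m _ hm
    refine Finset.sum_eq_zero fun j _ => ?_
    rw [hP, up_ne _ _ _ _ hm]
    simp
  · intro h; exact absurd (Finset.mem_univ l) h

omit [Fintype κ] in
lemma mv_up (F : MvPolynomial (Pc n) k) (y z0 : Pc n → k) (l : κ) (a w : Fin (n l + 1) → k) :
    mv F l (upd y l a) (upd z0 l w) = upd y l (fun i => Qx F y l w * a i - Bx F y l a w * w i) := by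
  unfold mv
  rw [qf_up, bf_up, up_up]
  have h1 : qf F l y (upd z0 l w) = Qx F y l w := by
    rw [qf_eq]
    congr 1
    funext i
    rw [up_same]
  have h2 : (fun i => (upd z0 l w) ⟨l, i⟩) = w := by
    funext i; rw [up_same]
  rw [h1, h2]
  congr 1
  funext i
  rw [up_same, up_same]

end

theorem m2' : S_M2 := by
  intro κ _ _ n k _ _ F hF l y ⟨w00, hw00⟩ g hg
  have : Infinite k := CharZero.infinite k
  have hq := qb (R := k) hF y l
  set x : Fin (n l + 1) → k := fun i => y ⟨l, i⟩ with hx
  set Q : (Fin (n l + 1) → k) → k := Qx F y l with hQ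
  set B : (Fin (n l + 1) → k) → (Fin (n l + 1) → k) → k := Bx F y l with hB
  -- linearity in the second argument
  have hlin2 : ∀ (c e : k) (a b b' : Fin (n l + 1) → k), B a (fun i => c * b i + e * b' i) = c * B a b + e * B a b' := by
    intro c e a b b'
    rw [hB, hq.symm, hq.lin, hq.symm b a, hq.symm b' a]
  -- the main relation
  have main : ∀ w u : Fin (n l + 1) → k, Q w ≠ 0 →
      ∑ i, eval y (pderiv ⟨l, i⟩ g) * (B w u * x i - B x u * w i + B x w * u i) = 0 := by
    intro w u hw
    set x2 : Fin (n l + 1) → k := fun i => Q w * x i + -(B x w) * w i with hx2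
    have hBx2w : B x2 w = -(Q w * B x w) := by
      rw [hx2, hB, hq.lin, hq.self]
      ring
    have hBx2u : B x2 u = Q w * B x u - B x w * B w u := by
      rw [hx2, hB, hq.lin]
      ring
    have hv := vel g y l (fun i => (Q w)⁻¹ * (B w u * x i - B x u * w i + B x w * u i))
      (fun i => (Q w)⁻¹ ^ 2 * (Q u * x2 i - B x2 u * u i)) (by
        intro e
        have h1 := hg (upd (fun _ => 0) l w) (upd (fun _ => 0) l (fun i => (Q w)⁻¹ * w i + ((Q w)⁻¹ * e) * u i))
        have h2 : mv F l y (upd (fun _ => 0) l w) = upd y l x2 := by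
          conv_lhs => rw [← up_self y l]
          rw [mv_up]
          congr 1
          funext i
          simp only [hx2, hQ, hB, hx]
          ring
        rw [h2, mv_up] at h1
        have h3 : (fun i => Qx F y l (fun i => (Q w)⁻¹ * w i + ((Q w)⁻¹ * e) * u i) * x2 i -
            Bx F y l x2 (fun i => (Q w)⁻¹ * w i + ((Q w)⁻¹ * e) * u i) * ((Q w)⁻¹ * w i + ((Q w)⁻¹ * e) * u i)) =
            fun i => y ⟨l, i⟩ + e * ((Q w)⁻¹ * (B w u * x i - B x u * w i + B x w * u i)) +
              e ^ 2 * ((Q w)⁻¹ ^ 2 * (Q u * x2 i - B x2 u * u i)) := by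
          funext i
          have h4 := hq.add (Q w)⁻¹ ((Q w)⁻¹ * e) w u
          have h5 := hlin2 (Q w)⁻¹ ((Q w)⁻¹ * e) x2 w u
          change Bx F y l x2 (fun i => (Q w)⁻¹ * w i + ((Q w)⁻¹ * e) * u i) = _ at h5
          rw [h4, h5, hBx2w, hBx2u]
          change ((Q w)⁻¹ ^ 2 * Q w + (Q w)⁻¹ * ((Q w)⁻¹ * e) * B w u + ((Q w)⁻¹ * e) ^ 2 * Q u) * x2 i - _ = _
          have h6 : x2 i = Q w * x i + -(B x w) * w i := rfl
          have h7 : x i = y ⟨l, i⟩ := rfl
          rw [h6, h7]
          field_simp
          ring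
        rw [h3] at h1
        exact h1)
    have h2 : ∑ i, eval y (pderiv ⟨l, i⟩ g) * ((Q w)⁻¹ * (B w u * x i - B x u * w i + B x w * u i)) =
        (Q w)⁻¹ * ∑ i, eval y (pderiv ⟨l, i⟩ g) * (B w u * x i - B x u * w i + B x w * u i) := by
      rw [Finset.mul_sum]
      refine Finset.sum_congr rfl fun i _ => ?_
      ring
    rw [h2] at hv
    exact (mul_eq_zero.1 hv).resolve_left (inv_ne_zero hw)
  -- a vector with nonzero value
  set w0 : Fin (n l + 1) → k := fun i => w00 ⟨l, i⟩ with hw0
  have hQ0 : Q w0 ≠ 0 := hw00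
  -- the Euler field
  have hE : ∑ i, eval y (pderiv ⟨l, i⟩ g) * x i = 0 := by
    have h1 := main w0 w0 hQ0
    have h2 : B w0 w0 = 2 * Q w0 := hq.self w0
    rw [h2] at h1
    have h3 : ∑ i, eval y (pderiv ⟨l, i⟩ g) * (2 * Q w0 * x i - B x w0 * w0 i + B x w0 * w0 i) =
        2 * Q w0 * ∑ i, eval y (pderiv ⟨l, i⟩ g) * x i := by
      rw [Finset.mul_sum]
      refine Finset.sum_congr rfl fun i _ => ?_
      ring
    rw [h3] at h1
    have h4 : (2 : k) * Q w0 ≠ 0 := mul_ne_zero two_ne_zero hQ0
    exact (mul_eq_zero.1 h1).resolve_left h4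
  -- the bracket for one vector
  set T : (Fin (n l + 1) → k) → (Fin (n l + 1) → k) → k := fun w u =>
    ∑ i, eval y (pderiv ⟨l, i⟩ g) * (B x w * u i - B x u * w i) with hT
  have hT0 : ∀ w u, Q w ≠ 0 → T w u = 0 := by
    intro w u hw
    have h1 := main w u hw
    have h2 : ∑ i, eval y (pderiv ⟨l, i⟩ g) * (B w u * x i - B x u * w i + B x w * u i) =
        B w u * (∑ i, eval y (pderiv ⟨l, i⟩ g) * x i) + T w u := by
      rw [hT, Finset.mul_sum, ← Finset.sum_add_distrib]
      refine Finset.sum_congr rfl fun i _ => ?_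
      ring
    rw [h2, hE, mul_zero, zero_add] at h1
    exact h1
  have hTlin : ∀ (c : k) (w w' u : Fin (n l + 1) → k), T (fun i => 1 * w i + c * w' i) u = T w u + c * T w' u := by
    intro c w w' u
    rw [hT]
    simp only
    rw [hlin2, Finset.mul_sum, ← Finset.sum_add_distrib]
    refine Finset.sum_congr rfl fun i _ => ?_
    ring
  have hTall : ∀ w u, T w u = 0 := by
    intro w u
    obtain ⟨c, hc⟩ : ∃ c : k, Q (fun i => 1 * w i + c * w0 i) ≠ 0 := by
      by_contra hcon
      push Not at hcon
      have h0 := hcon 0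
      have h1 := hcon 1
      have h2 := hcon (-1)
      rw [hQ, hq.add] at h0 h1 h2
      have h3 : (2 : k) * Q w0 = 0 := by
        rw [hQ]
        linear_combination h1 + h2 - 2 * h0
      exact (mul_ne_zero two_ne_zero hQ0) h3
    have h4 := hTlin c w w0 u
    rw [hT0 _ u hc, hT0 w0 u hQ0, mul_zero, add_zero] at h4
    exact h4.symm
  have hBe : ∀ i, B x (Pi.single i 1) = eval y (pderiv ⟨l, i⟩ F) := by
    intro i
    rw [hB]
    unfold Bx
    rw [Finset.sum_eq_single i]
    · rw [Pi.single_eq_same, one_mul, hx, up_self, aeval_eq_eval]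
    · intro j _ hj
      rw [Pi.single_eq_of_ne hj, zero_mul]
    · intro h; exact absurd (Finset.mem_univ i) h
  refine ⟨fun i j => ?_, ?_⟩
  · have h1 := hTall (Pi.single i 1) (Pi.single j 1)
    rw [hT] at h1
    simp only at h1
    rw [hBe, hBe] at h1
    have h2 : ∀ a, eval y (pderiv ⟨l, a⟩ g) * (eval y (pderiv ⟨l, i⟩ F) * (Pi.single j (1:k) : Fin (n l + 1) → k) a -
        eval y (pderiv ⟨l, j⟩ F) * (Pi.single i (1:k) : Fin (n l + 1) → k) a) =
        (if a = j then eval y (pderiv ⟨l, i⟩ F) * eval y (pderiv ⟨l, j⟩ g) else 0) -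
        (if a = i then eval y (pderiv ⟨l, j⟩ F) * eval y (pderiv ⟨l, i⟩ g) else 0) := by
      intro a
      rw [mul_sub]
      congr 1
      · by_cases h : a = j
        · subst h; rw [Pi.single_eq_same, if_pos rfl]; ring
        · rw [Pi.single_eq_of_ne h, if_neg h]; ring
      · by_cases h : a = i
        · subst h; rw [Pi.single_eq_same, if_pos rfl]; ring
        · rw [Pi.single_eq_of_ne h, if_neg h]; ring
    rw [Finset.sum_congr rfl fun a _ => h2 a, Finset.sum_sub_distrib, Finset.sum_ite_eq', Finset.sum_ite_eq',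
      if_pos (Finset.mem_univ _), if_pos (Finset.mem_univ _)] at h1
    rw [map_sub, map_mul, map_mul]
    exact h1
  · rw [map_sum]
    rw [← hE]
    refine Finset.sum_congr rfl fun i _ => ?_
    rw [map_mul, eval_X]
    ring

/-- job M2 -/
theorem m2 (_m1 : S_M1) : S_M2 := m2'

end Pool.Agent.Q178.ST
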