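import Pool.Agent.Q35.ST.Stm

/-!
# The cofactor of an irreducible factor of the fibre, as a polynomial (job UL of project ST)

Instead of a division by a monic polynomial we use a linear left inverse of the multiplication by
the factor, applied coefficientwise.
-/

set_option autoImplicit false

namespace Pool.Agent.Q178.ST

open MvPolynomial Pool.Agent.Q35.ST

attribute [local instance] MvPolynomial.gradedAlgebra

section

variable {κ : Type} [Fintype κ] [DecidableEq κ] {n : κ → ℕ} {k : Type} [Field k]

omit [Fintype κ] in
lemma upd_same {R : Type} (z : Pc n → R) (l : κ) (y : Fin (n l + 1) → R) (i : Fin (n l + 1)) :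
    upd z l y ⟨l, i⟩ = y i := by
  simp [upd]

omit [Fintype κ] in
lemma upd_ne {R : Type} (z : Pc n → R) (l : κ) (y : Fin (n l + 1) → R) (s : Pc n) (h : s.1 ≠ l) :
    upd z l y s = z s := by
  simp [upd, Function.update_of_ne h]

/-- the restriction to the fibre -/
noncomputable def fib (z : Pc n → k) (l : κ) :
    MvPolynomial (Pc n) k →ₐ[k] MvPolynomial (Fin (n l + 1)) k :=
  aeval (upd (fun s => C (z s)) l X)

lemma eval_fib (z : Pc n → k) (l : κ) (y : Fin (n l + 1) → k) (F : MvPolynomial (Pc n) k) :
    eval y (fib z l F) = eval (upd z l y) F := by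
  unfold fib
  induction F using MvPolynomial.induction_on with
  | C a => simp
  | add p q hp hq => rw [map_add, map_add, hp, hq, map_add]
  | mul_X p s hp =>
    rw [map_mul, map_mul, hp, map_mul, aeval_X, eval_X]
    congr 1
    obtain ⟨m, i⟩ := s
    by_cases h : m = l
    · subst h
      rw [upd_same, upd_same, eval_X]
    · rw [upd_ne _ _ _ _ h, upd_ne _ _ _ _ h, eval_C]

lemma fib_pderiv (z : Pc n → k) (l : κ) (i : Fin (n l + 1)) (F : MvPolynomial (Pc n) k) :
    fib z l (pderiv ⟨l, i⟩ F) = pderiv i (fib z l F) := by
  unfold fib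
  induction F using MvPolynomial.induction_on with
  | C a => simp
  | add p q hp hq => rw [map_add, map_add, hp, hq, map_add, map_add]
  | mul_X p s hp =>
    rw [pderiv_mul, map_add, map_mul, map_mul, hp, map_mul, pderiv_mul]
    congr 1
    congr 1
    obtain ⟨m, j⟩ := s
    by_cases h : m = l
    · subst h
      rw [aeval_X, upd_same]
      by_cases hj : j = i
      · subst hj
        rw [pderiv_X_self, pderiv_X_self, map_one]
      · rw [pderiv_X_of_ne hj, pderiv_X_of_ne (by
          intro h; exact hj (by simpa using h)), map_zero]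
    · rw [aeval_X, upd_ne _ _ _ _ h, pderiv_C, pderiv_X_of_ne (by
        intro h'; exact h (congrArg Sigma.fst h')), map_zero]

/-- the exponents in the factor `l` -/
noncomputable def cl (l : κ) (c : Pc n →₀ ℕ) : Fin (n l + 1) →₀ ℕ :=
  Finsupp.equivFunOnFinite.symm fun i => c ⟨l, i⟩

/-- the exponents in the other factors -/
noncomputable def cr (l : κ) (c : Pc n →₀ ℕ) : Pc n →₀ ℕ :=
  Finsupp.equivFunOnFinite.symm fun s => if s.1 = l then 0 else c s

lemma fib_monomial (z : Pc n → k) (l : κ) (c : Pc n →₀ ℕ) (a : k) :
    fib z l (monomial c a) = C (a * eval z (monomial (cr l c) 1)) * monomial (cl l c) 1 := by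
  unfold fib
  rw [aeval_monomial, C_mul, mul_assoc]
  congr 1
  rw [Finsupp.prod_fintype _ _ (by simp)]
  have h1 : ∀ s : Pc n, (upd (fun s => C (z s)) l X s : MvPolynomial (Fin (n l + 1)) k) ^ (c s) =
      C (z s ^ (cr l c s)) * (upd (fun _ => 1) l X s) ^ (c s) := by
    rintro ⟨m, j⟩
    by_cases h : m = l
    · subst h
      rw [upd_same, upd_same]
      simp [cr]
    · rw [upd_ne _ _ _ _ h, upd_ne _ _ _ _ h]
      simp [cr, h]
  rw [Finset.prod_congr rfl fun s _ => h1 s, Finset.prod_mul_distrib]
  congr 1
  · rw [← map_prod]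
    congr 1
    rw [eval_monomial, one_mul, Finsupp.prod_fintype _ _ (by simp)]
  · rw [Fintype.prod_sigma, Finset.prod_eq_single l]
    · rw [monomial_eq, C_1, one_mul, Finsupp.prod_fintype _ _ (by simp)]
      refine Finset.prod_congr rfl fun i _ => ?_
      rw [upd_same]
      rfl
    · intro m _ hm
      refine Finset.prod_eq_one fun i _ => ?_
      rw [upd_ne _ _ _ _ hm, one_pow]
    · intro h; exact absurd (Finset.mem_univ l) h

/-- the polynomial given by a linear map on the forms in the factor `l` -/
noncomputable def lift (l : κ) (Λ : MvPolynomial (Fin (n l + 1)) k →ₗ[k] MvPolynomial (Fin (n l + 1)) k)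
    (F : MvPolynomial (Pc n) k) : MvPolynomial (Pc n) k :=
  ∑ c ∈ F.support, monomial (cr l c) (coeff c F) *
    rename (fun i => (⟨l, i⟩ : Pc n)) (Λ (monomial (cl l c) 1))

lemma eval_lift (l : κ) (Λ : MvPolynomial (Fin (n l + 1)) k →ₗ[k] MvPolynomial (Fin (n l + 1)) k)
    (F : MvPolynomial (Pc n) k) (z : Pc n → k) :
    eval z (lift l Λ F) = eval (fun i => z ⟨l, i⟩) (Λ (fib z l F)) := by
  have h1 : fib z l F = ∑ c ∈ F.support, (coeff c F * eval z (monomial (cr l c) 1)) • monomial (cl l c) 1 := by
    conv_lhs => rw [F.as_sum]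
    rw [map_sum]
    refine Finset.sum_congr rfl fun c _ => ?_
    rw [fib_monomial, C_mul']
  rw [h1, map_sum, map_sum]
  unfold lift
  rw [map_sum]
  refine Finset.sum_congr rfl fun c _ => ?_
  rw [map_mul, eval_rename, map_smul, smul_eval]
  congr 1
  rw [eval_monomial, eval_monomial, one_mul]

end

lemma dec_eq {σ k : Type} [Field k] (f : MvPolynomial σ k) (i : ℕ) :
    ((DirectSum.decompose (homogeneousSubmodule σ k) f) i : MvPolynomial σ k) = homogeneousComponent i f :=
  decomposition.decompose'_apply f i

/-- the homogeneity of a cofactor -/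
lemma cofactor_hom {σ k : Type} [Fintype σ] [Field k] (α f r : MvPolynomial σ k) (e D : ℕ)
    (hα : α.IsHomogeneous e) (hf : f.IsHomogeneous D) (h : f = α * r) :
    f = if e ≤ D then α * homogeneousComponent (D - e) r else 0 := by
  have h1 : f = homogeneousComponent D f := by
    rw [homogeneousComponent_of_mem hf, if_pos rfl]
  split_ifs with he
  · have h2 := DirectSum.coe_decompose_mul_add_of_left_mem (homogeneousSubmodule σ k)
      (i := e) (j := D - e) (a := α) (b := r) hα
    rw [Nat.add_sub_cancel' he, ← h, dec_eq, dec_eq] at h2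
    rw [h1]
    exact h2
  · have h2 := DirectSum.coe_decompose_mul_of_left_mem_of_not_le (homogeneousSubmodule σ k)
      (n := D) (a := α) (b := r) hα he
    rw [← h, dec_eq] at h2
    rw [h1]
    exact h2

theorem ul : S_UL := by
  intro κ _ _ n k _ _ _ F d hF l α e hirr hα
  have hα0 : α ≠ 0 := hirr.ne_zero
  obtain ⟨Λ0, hΛ0⟩ := LinearMap.exists_leftInverse_of_injective (LinearMap.mulLeft k α) (by
    rw [LinearMap.ker_eq_bot]
    intro x y hxy
    exact mul_left_cancel₀ hα0 hxy)
  have hΛ : ∀ r, Λ0 (α * r) = r := fun r => by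
    have := LinearMap.congr_fun hΛ0 r
    simpa using this
  have hprime : (Ideal.span {α}).IsPrime := by
    rw [Ideal.span_singleton_prime hα0]
    exact hirr.prime
  -- the fibre is homogeneous
  have hfibh : ∀ z, (fib z l F).IsHomogeneous (d l) := by
    intro z
    rw [F.as_sum, map_sum]
    refine IsHomogeneous.sum _ _ _ fun c hc => ?_
    rw [fib_monomial]
    have h1 : (monomial (cl l c) (1 : k)).IsHomogeneous (d l) := by
      apply isHomogeneous_monomial
      rw [Finsupp.degree_eq_sum]
      exact hF c hc l (Set.mem_univ l)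
    have := (isHomogeneous_C (Fin (n l + 1)) (coeff c F * eval z (monomial (cr l c) 1))).mul h1
    rwa [zero_add] at this
  -- the factorization at the special points
  have hdiv : ∀ z : Pc n → k, (∀ y, eval y α = 0 → eval (upd z l y) F = 0) → ∃ r, fib z l F = α * r := by
    intro z hz
    have h1 : fib z l F ∈ vanishingIdeal k (zeroLocus k (Ideal.span {α})) := by
      rw [mem_vanishingIdeal_iff]
      intro y hy
      rw [mem_zeroLocus_iff] at hy
      have h2 := hy α (Ideal.mem_span_singleton_self α)
      have h3 : eval y (fib z l F) = 0 := by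
        rw [eval_fib]
        exact hz y (by simpa [aeval_eq_eval] using h2)
      simpa [aeval_eq_eval] using h3
    rw [IsPrime.vanishingIdeal_zeroLocus, Ideal.mem_span_singleton] at h1
    exact h1
  by_cases hed : e ≤ d l
  · set Λ : MvPolynomial (Fin (n l + 1)) k →ₗ[k] MvPolynomial (Fin (n l + 1)) k :=
      (homogeneousComponent (d l - e)).comp Λ0 with hΛdef
    refine ⟨lift l Λ F, Function.update d l (d l - e), ?_, ?_, ?_⟩
    · intro m hm l' _
      obtain ⟨c, hc, hmc⟩ : ∃ c ∈ F.support, m ∈ (monomial (cr l c) (coeff c F) *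
          rename (fun i => (⟨l, i⟩ : Pc n)) (Λ (monomial (cl l c) 1))).support := by
        by_contra hcon
        push Not at hcon
        apply (mem_support_iff.1 hm)
        unfold lift
        rw [coeff_sum]
        refine Finset.sum_eq_zero fun c hc => ?_
        exact notMem_support_iff.1 (hcon c hc)
      have h1 := support_mul _ _ hmc
      rw [Finset.mem_add] at h1
      obtain ⟨m1, hm1, m2, hm2, hm12⟩ := h1
      have h2 := support_monomial_subset hm1
      rw [Finset.mem_singleton] at h2
      have hinj : Function.Injective (fun i => (⟨l, i⟩ : Pc n)) := by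
        intro i j h
        simpa using h
      rw [support_rename_of_injective hinj, Finset.mem_image] at hm2
      obtain ⟨b, hb, hbm⟩ := hm2
      have hcF := hF c hc
      by_cases hl : l' = l
      · subst hl
        rw [Function.update_self]
        have h3 : ∑ i, b i = d l' - e := by
          have h4 : (Λ (monomial (cl l' c) 1)).IsHomogeneous (d l' - e) :=
            homogeneousComponent_isHomogeneous _ _
          have h5 := h4 (mem_support_iff.1 hb)
          rw [Finsupp.weight_apply, Finsupp.sum_fintype _ _ (by simp)] at h5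
          simpa using h5
        rw [← h3]
        refine Finset.sum_congr rfl fun i _ => ?_
        rw [← hm12, ← hbm, h2, Finsupp.add_apply, Finsupp.mapDomain_apply hinj]
        simp [cr]
      · rw [Function.update_of_ne hl, ← hcF l' (Set.mem_univ _)]
        refine Finset.sum_congr rfl fun i _ => ?_
        rw [← hm12, ← hbm, h2, Finsupp.add_apply, Finsupp.mapDomain_of_notMem_range]
        · simp [cr, hl]
        · rintro ⟨j, hj⟩
          exact hl (congrArg Sigma.fst hj).symm
    · intro m hm
      rw [Function.update_of_ne hm]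
    · intro z hz hαz hU i
      obtain ⟨r, hr⟩ := hdiv z hz
      have h1 := cofactor_hom α _ r e (d l) hα (hfibh z) hr
      rw [if_pos hed] at h1
      set r' := homogeneousComponent (d l - e) r with hr'
      have h2 : Λ (fib z l F) = r' := by
        rw [hΛdef, LinearMap.comp_apply, hr, hΛ]
      rw [eval_lift, h2] at hU
      have h3 : eval z (pderiv ⟨l, i⟩ F) = eval (fun i => z ⟨l, i⟩) (pderiv i (fib z l F)) := by
        rw [← fib_pderiv, eval_fib]
        congr 1
        congr 1
        funext s
        obtain ⟨m, j⟩ := s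
        by_cases h : m = l
        · subst h; rw [upd_same]
        · rw [upd_ne _ _ _ _ h]
      rw [h3, h1, pderiv_mul, map_add, map_mul, map_mul, hU, hαz]
      simp
  · refine ⟨0, d, ?_, fun m _ => rfl, ?_⟩
    · intro m hm
      simp at hm
    · intro z hz hαz hU i
      obtain ⟨r, hr⟩ := hdiv z hz
      have h1 := cofactor_hom α _ r e (d l) hα (hfibh z) hr
      rw [if_neg hed] at h1
      have h3 : eval z (pderiv ⟨l, i⟩ F) = eval (fun i => z ⟨l, i⟩) (pderiv i (fib z l F)) := by
        rw [← fib_pderiv, eval_fib]
        congr 1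
        congr 1
        funext s
        obtain ⟨m, j⟩ := s
        by_cases h : m = l
        · subst h; rw [upd_same]
        · rw [upd_ne _ _ _ _ h]
      rw [h3, h1]
      simp

end Pool.Agent.Q178.ST
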