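import Pool.Agent.Q178.ST.MA

/-!
# Moves at one place (job WD of project ST)
-/

set_option autoImplicit false

namespace Pool.Agent.Q178.ST

open MvPolynomial Pool.Agent.Q35.ST Filter Topology

section natural

variable {κ : Type} [DecidableEq κ] {n : κ → ℕ} {k R R' : Type} [Field k] [CommRing R] [Algebra k R]
  [CommRing R'] [Algebra k R']

lemma upd_comp {A B : Type} (f : A → B) (z : Pc n → A) (l : κ) (y : Fin (n l + 1) → A) :
    (fun s => f (upd z l y s)) = upd (fun s => f (z s)) l (fun i => f (y i)) := by
  funext s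
  obtain ⟨m, j⟩ := s
  by_cases h : m = l
  · subst h
    simp [upd]
  · simp [upd, Function.update_of_ne h]

lemma aeval_nat (ψ : R →ₐ[k] R') (G : MvPolynomial (Pc n) k) (z : Pc n → R) :
    ψ (aeval z G) = aeval (fun s => ψ (z s)) G := by
  rw [← AlgHom.comp_apply, comp_aeval]

lemma qf_nat (ψ : R →ₐ[k] R') (F : MvPolynomial (Pc n) k) (l : κ) (z w : Pc n → R) :
    ψ (qf F l z w) = qf F l (fun s => ψ (z s)) (fun s => ψ (w s)) := by
  unfold qf
  rw [aeval_nat, upd_comp]

lemma bf_nat (ψ : R →ₐ[k] R') (F : MvPolynomial (Pc n) k) (l : κ) (z w : Pc n → R) :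
    ψ (bf F l z w) = bf F l (fun s => ψ (z s)) (fun s => ψ (w s)) := by
  unfold bf
  rw [map_sum]
  refine Finset.sum_congr rfl fun i _ => ?_
  rw [map_mul, aeval_nat]

lemma mv_nat (ψ : R →ₐ[k] R') (F : MvPolynomial (Pc n) k) (l : κ) (z w : Pc n → R) :
    (fun s => ψ (mv F l z w s)) = mv F l (fun s => ψ (z s)) (fun s => ψ (w s)) := by
  unfold mv
  rw [upd_comp]
  congr 1
  funext i
  rw [map_sub, map_mul, map_mul, qf_nat, bf_nat]

end natural

section field

variable {κ : Type} [DecidableEq κ] {n : κ → ℕ} {K L : Type} [Field K] [Field L]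

lemma qf_map (φ : K →+* L) (F : MvPolynomial (Pc n) K) (l : κ) (z w : Pc n → K) :
    qf (map φ F) l (fun s => φ (z s)) (fun s => φ (w s)) = φ (qf F l z w) := by
  unfold qf
  rw [aeval_eq_eval, aeval_eq_eval]
  show eval _ (map φ F) = φ (eval _ F)
  rw [map_eval]
  have h := upd_comp (fun a => φ a) z l (fun i => w ⟨l, i⟩)
  rw [show (φ ∘ upd z l fun i => w ⟨l, i⟩) = fun s => φ (upd z l (fun i => w ⟨l, i⟩) s) from rfl, h]

lemma bf_map (φ : K →+* L) (F : MvPolynomial (Pc n) K) (l : κ) (z w : Pc n → K) :
    bf (map φ F) l (fun s => φ (z s)) (fun s => φ (w s)) = φ (bf F l z w) := by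
  unfold bf
  rw [map_sum]
  refine Finset.sum_congr rfl fun i _ => ?_
  rw [map_mul, aeval_eq_eval, aeval_eq_eval, pderiv_map]
  show _ * eval _ (map φ (pderiv ⟨l, i⟩ F)) = _ * φ (eval _ (pderiv ⟨l, i⟩ F))
  rw [map_eval]
  rfl

lemma mv_map (φ : K →+* L) (F : MvPolynomial (Pc n) K) (l : κ) (z w : Pc n → K) :
    mv (map φ F) l (fun s => φ (z s)) (fun s => φ (w s)) = fun s => φ (mv F l z w s) := by
  unfold mv
  rw [upd_comp (fun a => φ a)]
  congr 1
  funext i
  rw [map_sub, map_mul, map_mul, qf_map, bf_map]

end field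

section cont

variable {κ : Type} [DecidableEq κ] {n : κ → ℕ} {L X : Type} [NontriviallyNormedField L] [TopologicalSpace X]

lemma cont_upd {z : X → Pc n → L} (hz : Continuous z) {l : κ} {y : X → Fin (n l + 1) → L} (hy : Continuous y) :
    Continuous fun x => upd (z x) l (y x) := by
  apply continuous_pi
  rintro ⟨m, j⟩
  by_cases h : m = l
  · subst h
    have : (fun x => upd (z x) m (y x) ⟨m, j⟩) = fun x => y x j := by
      funext x; simp [upd]
    rw [this]
    exact (continuous_apply j).comp hy
  · have : (fun x => upd (z x) l (y x) ⟨m, j⟩) = fun x => z x ⟨m, j⟩ := by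
      funext x; simp [upd, Function.update_of_ne h]
    rw [this]
    exact (continuous_apply _).comp hz

lemma cont_mv [Fintype κ] (G : MvPolynomial (Pc n) L) (l : κ) {z w : X → Pc n → L} (hz : Continuous z)
    (hw : Continuous w) : Continuous fun x => mv G l (z x) (w x) := by
  unfold mv
  have hwl : Continuous fun x => (fun i => w x ⟨l, i⟩ : Fin (n l + 1) → L) :=
    continuous_pi fun i => (continuous_apply _).comp hw
  have hev : ∀ (H : MvPolynomial (Pc n) L) (f : X → Pc n → L), Continuous f → Continuous fun x => aeval (f x) H := by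
    intro H f hf
    simp only [aeval_eq_eval]
    exact (MvPolynomial.continuous_eval H).comp hf
  refine cont_upd hz ?_
  apply continuous_pi
  intro i
  refine Continuous.sub (Continuous.mul ?_ ((continuous_apply _).comp hz))
    (Continuous.mul ?_ ((continuous_apply _).comp hw))
  · unfold qf
    exact hev _ _ (cont_upd hz hwl)
  · unfold bf
    refine continuous_finsetSum _ fun j _ => ?_
    exact ((continuous_apply _).comp hw).mul (hev _ _ hz)

end cont

/-- homogeneity -/
lemma aeval_sc {κ : Type} [Fintype κ] {n : κ → ℕ} {k R : Type} [Field k] [CommRing R] [Algebra k R]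
    {F : MvPolynomial (Pc n) k} {d : κ → ℕ} (hF : MH Set.univ d F) (t : κ → R) (z : Pc n → R) :
    aeval (sc t z) F = (∏ j, t j ^ d j) * aeval z F := by
  rw [aeval_def, aeval_def, eval₂_eq', eval₂_eq', Finset.mul_sum]
  refine Finset.sum_congr rfl fun m hm => ?_
  have h1 : ∏ s, sc t z s ^ m s = (∏ j, t j ^ d j) * ∏ s, z s ^ m s := by
    have h2 : ∀ s : Pc n, sc t z s ^ m s = t s.1 ^ m s * z s ^ m s := fun s => by
      unfold sc; rw [mul_pow]
    rw [Finset.prod_congr rfl fun s _ => h2 s, Finset.prod_mul_distrib]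
    congr 1
    rw [Fintype.prod_sigma]
    refine Finset.prod_congr rfl fun j _ => ?_
    simp only
    rw [Finset.prod_pow_eq_pow_sum]
    congr 1
    exact hF m hm j (Set.mem_univ j)
  rw [h1]
  ring

section main

variable {κ : Type} [Fintype κ] [DecidableEq κ] {n : κ → ℕ} {K : Type} [Field K] [CharZero K]
  {ι : Type} [Fintype ι] {L : ι → Type} [∀ v, NontriviallyNormedField (L v)] (σ : ∀ v, K →+* L v)

/-- a small nonzero element -/
lemma exists_small [Nonempty ι] (hd : DenseRange (fun a : K => fun v => σ v a)) :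
    ∃ c : K, ∀ v, 0 < ‖σ v c‖ ∧ ‖σ v c‖ < 1 := by
  have hopen : IsOpen {x : ∀ v, L v | ∀ v, 0 < ‖x v‖ ∧ ‖x v‖ < 1} := by
    have : {x : ∀ v, L v | ∀ v, 0 < ‖x v‖ ∧ ‖x v‖ < 1} = ⋂ v, {x : ∀ v, L v | 0 < ‖x v‖ ∧ ‖x v‖ < 1} := by
      ext x; simp
    rw [this]
    refine isOpen_iInter_of_finite fun v => ?_
    have h1 : Continuous fun x : ∀ v, L v => ‖x v‖ := (continuous_apply v).norm
    exact (isOpen_lt continuous_const h1).inter (isOpen_lt h1 continuous_const)
  have hne : {x : ∀ v, L v | ∀ v, 0 < ‖x v‖ ∧ ‖x v‖ < 1}.Nonempty := by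
    choose x hx using fun v => NormedField.exists_norm_lt_one (L v)
    exact ⟨x, hx⟩
  obtain ⟨c, hc⟩ := hd.exists_mem_open hopen hne
  exact ⟨c, hc⟩

/-- density of the points with coordinates in `K` -/
lemma dense_coord (N : Type) (hd : DenseRange (fun a : K => fun v => σ v a)) :
    DenseRange (fun (a : N → K) => (fun v s => σ v (a s) : ∀ v, N → L v)) := by
  have h1 : DenseRange (Pi.map (fun (_ : N) (a : K) => (fun v => σ v a : ∀ v, L v))) :=
    DenseRange.piMap fun _ => hd
  have hsw : Continuous (fun (x : N → ∀ v, L v) => (fun v s => x s v : ∀ v, N → L v)) := by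
    apply continuous_pi
    intro v
    apply continuous_pi
    intro s
    exact (continuous_apply v).comp (continuous_apply s)
  have hsurj : Function.Surjective (fun (x : N → ∀ v, L v) => (fun v s => x s v : ∀ v, N → L v)) := by
    intro y
    exact ⟨fun s v => y v s, rfl⟩
  exact hsurj.denseRange.comp h1 hsw

/-- the closure step for one point -/
lemma stepA [Nonempty ι] [DecidableEq ι] (hd : DenseRange (fun a : K => fun v => σ v a))
    {F : MvPolynomial (Pc n) K} (hF : MH Set.univ (fun _ => 2) F) {y : Pc n → K} (hy : eval y F = 0)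
    (hND : ND F y) (v : ι) (l : κ) (w w' : Pc n → L v) :
    Function.update (fun u s => σ u (y s)) v
      (mv (map (σ v) F) l (mv (map (σ v) F) l (fun s => σ v (y s)) w) w') ∈
    closure {S : ∀ v, Pc n → L v | ∃ y : Pc n → K, eval y F = 0 ∧ ND F y ∧ S = fun v s => σ v (y s)} := by
  choose wm hwm using hND
  set q0 : K := qf F l y (wm l) with hq0
  have hq00 : q0 ≠ 0 := hwm l
  -- the parameters of the exact stay
  set a0 : Pc n × Bool → K := fun p => if p.2 then q0⁻¹ * wm l p.1 else wm l p.1 with ha0
  set Y : (Pc n × Bool → K) → Pc n → K := fun a =>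
    mv F l (mv F l y (fun s => a (s, false))) (fun s => a (s, true)) with hY
  have hstay : Y a0 = y := by
    have h1 := m1 κ n K K F hF l y (wm l)
    have h2 := m1 κ n K K F hF l (mv F l y (wm l)) (wm l)
    have e1 : (fun s => a0 (s, false)) = wm l := by
      funext s; simp [ha0]
    have e2 : (fun s => a0 (s, true)) = fun s => q0⁻¹ * wm l s := by
      funext s; simp [ha0]
    simp only [hY]
    rw [e1, e2, h2.2.2.2.1 q0⁻¹, h1.2.2.1]
    have e3 : (fun i => q0⁻¹ ^ 2 * (upd y l (fun i => qf F l y (wm l) ^ 2 * y ⟨l, i⟩)) ⟨l, i⟩) =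
        fun i => y ⟨l, i⟩ := by
      funext i
      rw [up_same, ← hq0]
      field_simp
    rw [e3]
    unfold mv
    rw [up_up, up_self]
  -- the admissible parameters
  set D : Set (Pc n × Bool → K) := {a | ND F (Y a)} with hD
  obtain ⟨c, hc⟩ := exists_small σ hd
  have hline : ∀ a : Pc n × Bool → K, ∀ᶠ j : ℕ in atTop, (fun p => a p + c ^ j * (a0 p - a p)) ∈ D := by
    intro a
    set A : Pc n × Bool → Polynomial K := fun p => Polynomial.C (a p) + Polynomial.X * Polynomial.C (a0 p - a p)
    set YY : Pc n → Polynomial K := mv F l (mv F l (fun s => Polynomial.C (y s)) (fun s => A (s, false)))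
      (fun s => A (s, true)) with hYY
    set h : κ → Polynomial K := fun m => qf F m YY (fun s => Polynomial.C (wm m s)) with hh
    have hev : ∀ (e : K) (m : κ), Polynomial.eval e (h m) = qf F m (Y (fun p => a p + e * (a0 p - a p))) (wm m) := by
      intro e m
      have h1 : Polynomial.eval e (h m) = (Polynomial.aeval e : Polynomial K →ₐ[K] K) (h m) := by
        rw [Polynomial.coe_aeval_eq_eval]
      rw [h1]
      simp only [hh]
      rw [qf_nat]
      have h2 : (fun s => (Polynomial.aeval e : Polynomial K →ₐ[K] K) (YY s)) =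
          Y (fun p => a p + e * (a0 p - a p)) := by
        rw [hYY, mv_nat, mv_nat]
        simp only [hY]
        congr 1
        · congr 1
          · funext s; simp
          · funext s; simp [A]
        · funext s; simp [A]
      rw [h2]
      congr 1
      funext s
      simp
    have hne : ∀ m, h m ≠ 0 := by
      intro m h0
      have h1 := hev 1 m
      rw [h0, Polynomial.eval_zero] at h1
      have h2 : (fun p => a p + 1 * (a0 p - a p)) = a0 := by funext p; ring
      rw [h2, hstay] at h1
      exact hwm m h1.symm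
    have hprod : ∏ m, h m ≠ 0 := Finset.prod_ne_zero_iff.2 fun m _ => hne m
    have hfin : {j : ℕ | Polynomial.eval (c ^ j) (∏ m, h m) = 0}.Finite := by
      have hinj : Function.Injective fun j : ℕ => c ^ j := by
        obtain ⟨v⟩ := ‹Nonempty ι›
        intro i j hij
        have h1 : ‖σ v c‖ ^ i = ‖σ v c‖ ^ j := by
          have := congrArg (fun x => ‖σ v x‖) hij
          simpa using this
        exact pow_right_injective₀ (hc v).1 (hc v).2.ne h1
      refine Set.Finite.preimage (f := fun j : ℕ => c ^ j) hinj.injOn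
        (s := {x | (∏ m, h m).IsRoot x}) (Polynomial.finite_setOfPred_isRoot hprod)
    have hev2 : ∀ᶠ j : ℕ in atTop, Polynomial.eval (c ^ j) (∏ m, h m) ≠ 0 := by
      have := hfin.compl_mem_cofinite
      rw [Nat.cofinite_eq_atTop] at this
      exact this
    filter_upwards [hev2] with j hj
    intro m
    refine ⟨wm m, ?_⟩
    rw [← hev]
    rw [Polynomial.eval_prod] at hj
    exact (Finset.prod_ne_zero_iff.1 hj) m (Finset.mem_univ m)
  -- density of the admissible parameters
  set σN : (Pc n × Bool → K) → (∀ u, Pc n × Bool → L u) := fun a u p => σ u (a p) with hσN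
  have hDd : ∀ x : (∀ u, Pc n × Bool → L u), x ∈ closure (σN '' D) := by
    have h1 : ∀ a, σN a ∈ closure (σN '' D) := by
      intro a
      have htend : Tendsto (fun j : ℕ => σN (fun p => a p + c ^ j * (a0 p - a p))) atTop (𝓝 (σN a)) := by
        rw [tendsto_pi_nhds]
        intro u
        rw [tendsto_pi_nhds]
        intro p
        have h2 : Tendsto (fun j : ℕ => (σ u c) ^ j) atTop (𝓝 0) :=
          tendsto_pow_atTop_nhds_zero_of_norm_lt_one (hc u).2
        have h3 := (h2.mul_const (σ u (a0 p - a p))).const_add (σ u (a p))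
        rw [zero_mul, add_zero] at h3
        refine h3.congr fun j => ?_
        simp [hσN]
      refine mem_closure_of_tendsto htend ?_
      filter_upwards [hline a] with j hj
      exact ⟨_, hj, rfl⟩
    have h2 : closure (Set.range σN) ⊆ closure (σN '' D) := by
      apply closure_minimal _ isClosed_closure
      rintro _ ⟨a, rfl⟩
      exact h1 a
    intro x
    exact h2 ((dense_coord σ (Pc n × Bool) hd) x)
  -- the continuous map
  set P : (∀ u, Pc n × Bool → L u) → (∀ u, Pc n → L u) := fun x u =>
    mv (map (σ u) F) l (mv (map (σ u) F) l (fun s => σ u (y s)) (fun s => x u (s, false)))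
      (fun s => x u (s, true)) with hP
  have hPc : Continuous P := by
    apply continuous_pi
    intro u
    have hx : ∀ b : Bool, Continuous fun x : (∀ u, Pc n × Bool → L u) => (fun s => x u (s, b) : Pc n → L u) := by
      intro b
      apply continuous_pi
      intro s
      exact (continuous_apply (s, b)).comp (continuous_apply u)
    exact cont_mv _ _ (cont_mv _ _ continuous_const (hx false)) (hx true)
  set xs : (∀ u, Pc n × Bool → L u) := Function.update (σN a0) v (fun p => if p.2 then w' p.1 else w p.1) with hxs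
  have hPx : P xs = Function.update (fun u s => σ u (y s)) v
      (mv (map (σ v) F) l (mv (map (σ v) F) l (fun s => σ v (y s)) w) w') := by
    funext u
    by_cases hu : u = v
    · subst hu
      rw [Function.update_self]
      simp only [hP, hxs, Function.update_self]
      congr 1
    · rw [Function.update_of_ne hu]
      simp only [hP, hxs, Function.update_of_ne hu]
      have h1 : mv (map (σ u) F) l (mv (map (σ u) F) l (fun s => σ u (y s)) (fun s => σN a0 u (s, false)))
          (fun s => σN a0 u (s, true)) = fun s => σ u (Y a0 s) := by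
        simp only [hY, hσN]
        rw [mv_map, mv_map]
      rw [h1, hstay]
  rw [← hPx]
  refine map_mem_closure hPc (hDd xs) ?_
  rintro _ ⟨a, ha, rfl⟩
  refine ⟨Y a, ?_, ha, ?_⟩
  · have h1 := (m1 κ n K K F hF l y (fun s => a (s, false))).2.1
    have h2 := (m1 κ n K K F hF l (mv F l y (fun s => a (s, false))) (fun s => a (s, true))).2.1
    rw [aeval_eq_eval, aeval_eq_eval] at h1 h2
    change eval _ F = _ * eval _ F at h1
    change eval _ F = _ * eval _ F at h2
    simp only [hY]
    rw [h2, h1, hy]
    ring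
  · funext u
    simp only [hP, hσN, hY]
    rw [mv_map, mv_map]

/-- the closure step for scalings of one point -/
lemma stepB [Nonempty ι] [DecidableEq ι] (hd : DenseRange (fun a : K => fun v => σ v a))
    {F : MvPolynomial (Pc n) K} (hF : MH Set.univ (fun _ => 2) F) {y : Pc n → K} (hy : eval y F = 0)
    (hND : ND F y) (v : ι) (t : κ → L v) (ht : ∀ l, t l ≠ 0) :
    Function.update (fun u s => σ u (y s)) v (sc t (fun s => σ v (y s))) ∈
    closure {S : ∀ v, Pc n → L v | ∃ y : Pc n → K, eval y F = 0 ∧ ND F y ∧ S = fun v s => σ v (y s)} := by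
  set P : (∀ u, κ → L u) → (∀ u, Pc n → L u) := fun x u => sc (x u) (fun s => σ u (y s)) with hP
  have hPc : Continuous P := by
    apply continuous_pi
    intro u
    apply continuous_pi
    intro s
    have h1 : Continuous fun x : (∀ u, κ → L u) => x u s.1 :=
      (continuous_apply s.1).comp (continuous_apply u)
    exact h1.mul continuous_const
  set xs : (∀ u, κ → L u) := Function.update (fun _ _ => 1) v t with hxs
  have hPx : P xs = Function.update (fun u s => σ u (y s)) v (sc t (fun s => σ v (y s))) := by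
    funext u
    by_cases hu : u = v
    · subst hu
      simp only [hP, hxs, Function.update_self]
    · simp only [hP, hxs, Function.update_of_ne hu]
      funext s
      unfold sc
      ring
  rw [← hPx]
  -- the nonzero scalings are dense near xs
  have hx : xs ∈ closure ((fun (a : κ → K) => (fun u s => σ u (a s) : ∀ u, κ → L u)) '' {a | ∀ j, a j ≠ 0}) := by
    have hopen : IsOpen {x : ∀ u, κ → L u | ∀ j, x v j ≠ 0} := by
      have : {x : ∀ u, κ → L u | ∀ j, x v j ≠ 0} = ⋂ j, {x : ∀ u, κ → L u | x v j ≠ 0} := by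
        ext x; simp
      rw [this]
      refine isOpen_iInter_of_finite fun j => ?_
      exact isOpen_ne_fun ((continuous_apply j).comp (continuous_apply v)) continuous_const
    have hmem : xs ∈ {x : ∀ u, κ → L u | ∀ j, x v j ≠ 0} := by
      intro j
      simp only [hxs, Function.update_self]
      exact ht j
    have h1 := (dense_coord σ κ hd) xs
    rw [mem_closure_iff] at h1 ⊢
    intro O hO hxO
    obtain ⟨z, ⟨hzO, hz2⟩, ⟨a, rfl⟩⟩ := h1 (O ∩ {x : ∀ u, κ → L u | ∀ j, x v j ≠ 0}) (hO.inter hopen) ⟨hxO, hmem⟩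
    refine ⟨_, hzO, a, fun j h0 => ?_, rfl⟩
    have h3 := hz2 j
    simp only [h0, map_zero] at h3
    exact h3 rfl
  refine map_mem_closure hPc hx ?_
  rintro _ ⟨a, ha, rfl⟩
  have hsc : ∀ z : Pc n → K, eval (sc a z) F = (∏ j, a j ^ 2) * eval z F := by
    intro z
    have := aeval_sc (R := K) hF a z
    rw [aeval_eq_eval, aeval_eq_eval] at this
    exact this
  refine ⟨sc a y, by rw [hsc, hy, mul_zero], ?_, ?_⟩
  · intro m
    obtain ⟨w, hw⟩ := hND m
    refine ⟨sc a w, ?_⟩
    have h1 : qf F m (sc a y) (sc a w) = (∏ j, a j ^ 2) * qf F m y w := by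
      unfold qf
      rw [← aeval_sc hF]
      congr 1
      congr 1
      funext s
      obtain ⟨j, i⟩ := s
      by_cases h : j = m
      · subst h
        rw [up_same]
        unfold sc
        rw [up_same]
      · rw [up_ne _ _ _ _ h]
        unfold sc
        rw [up_ne _ _ _ _ h]
    rw [h1]
    exact mul_ne_zero (Finset.prod_ne_zero_iff.2 fun j _ => pow_ne_zero 2 (ha j)) hw
  · funext u s
    simp [hP, sc]

end main

/-- job WD -/
theorem wd' : S_WD := by
  intro κ _ _ n K _ _ ι _ _ L _ σ hd F hF S hS v b hb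
  have : Nonempty ι := ⟨v⟩
  set C := closure {S : ∀ v, Pc n → L v | ∃ y : Pc n → K, eval y F = 0 ∧ ND F y ∧ S = fun v s => σ v (y s)} with hC
  rcases hb with ⟨l, w, w', rfl⟩ | ⟨t, ht, rfl⟩
  · have hcont : Continuous fun S : (∀ v, Pc n → L v) =>
        Function.update S v (mv (map (σ v) F) l (mv (map (σ v) F) l (S v) w) w') := by
      refine continuous_id.update v ?_
      exact cont_mv _ _ (cont_mv _ _ (continuous_apply v) continuous_const) continuous_const
    have h1 : Set.MapsTo (fun S : (∀ v, Pc n → L v) =>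
        Function.update S v (mv (map (σ v) F) l (mv (map (σ v) F) l (S v) w) w'))
        {S : ∀ v, Pc n → L v | ∃ y : Pc n → K, eval y F = 0 ∧ ND F y ∧ S = fun v s => σ v (y s)} C := by
      rintro _ ⟨y, hy, hND, rfl⟩
      exact stepA σ hd hF hy hND v l w w'
    have h2 := map_mem_closure hcont hS h1
    rw [hC, closure_closure] at h2
    exact h2
  · have hcont : Continuous fun S : (∀ v, Pc n → L v) => Function.update S v (sc t (S v)) := by
      refine continuous_id.update v ?_
      apply continuous_pi
      intro s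
      exact continuous_const.mul ((continuous_apply s).comp (continuous_apply v))
    have h1 : Set.MapsTo (fun S : (∀ v, Pc n → L v) => Function.update S v (sc t (S v)))
        {S : ∀ v, Pc n → L v | ∃ y : Pc n → K, eval y F = 0 ∧ ND F y ∧ S = fun v s => σ v (y s)} C := by
      rintro _ ⟨y, hy, hND, rfl⟩
      exact stepB σ hd hF hy hND v t ht
    have h2 := map_mem_closure hcont hS h1
    rw [hC, closure_closure] at h2
    exact h2

theorem wd (_m1 : S_M1) : S_WD := wd'

end Pool.Agent.Q178.ST
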